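import Pool.Agent.H94.CB.M71
import Pool.Agent.H94.CB.M72

/-!
# CV Cases: the three cases (genus at least two, one, zero)

Let `x` be transcendental (`hK.exists_tr`), `L = ℂ(x)`, `n = finrank L K`, `w, a` a Birkhoff basis (`exists_birk`), `v` the dual basis (`exists_dual`), `i₀` as in `Birk.exists_zero`: `a i₀ = 0`, `1 ≤ a i` for `i ≠ i₀`.
(1) If there are two different pairs `(i, j)`, `(i', j')` with `j + 2 ≤ a i`, `j' + 2 ≤ a i'`: `h₁ = x ^ j * v i`, `h₂ = x ^ j' * v i'` are linearly independent over `ℂ` (`v` is a basis over `L`, the powers of `x`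
are linearly independent over `ℂ`), so `h₂ / h₁` is not a constant: first alternative, by `regular_form`, `ω = dx x ≠ 0` (`dx_ne_zero`).
(2) If there is exactly one such pair `(i₁, j)`: then `a i₁ = 2` (`j = 0`; if `a i₁ ≥ 3` there are two pairs), and `a i = 1` for `i ≠ i₀, i₁`.  `h = v i₁`.  Let `E` be a place with `ord x < 0`
(`exists_place_inf`).  For `k ≥ 1` use `Birk.exists_dv` with `m = k`: `k ≤ k * (- oz E x)`; `∑ i, (k + 1 - a i) = (k + 1) + (k - 1) + (n - 2) * k = n * k`, so `n * k + k ≤ finrank W + k * n`.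
(3) If there is none: `a i = 1` for `i ≠ i₀`.  `E` as before, `Birk.exists_dv` with `m = k = 1`: `∑ i, (2 - a i) = 2 + (n - 1) = n + 1`, so `finrank W ≥ 2`, `W ≤ LD (dv E 1)`.  So there is a non-constant `f ∈ LD (dv E 1)`
(`exists_not_const`): `top_of_dv_one`.
-/

set_option autoImplicit false

open Pool.Agent.H23.Fano (PrimeDivisorOver Form regularForms)
open Pool.Agent.H17LG.Variety (PoleAtMost IsLogGeneralType)

noncomputable section

namespace Pool.Agent.H13.CV

attribute [-instance] ProperSMul.toContinuousSMul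

variable {K : Type} [Field K] [Algebra ℂ K]

private theorem Cases_not_const {L : IntermediateField ℂ K} {x : K} {n : ℕ} (hL : Gen L x) (v : Module.Basis (Fin n) L K)
    {i i' : Fin n} {j j' : ℕ} (hne : i ≠ i' ∨ j ≠ j') (c : ℂ) : x ^ j' * v i' / (x ^ j * v i) ≠ algebraMap ℂ K c := by
  intro hc
  have hx0 : x ≠ 0 := hL.ne_zero
  have h1 : x ^ j * v i ≠ 0 := mul_ne_zero (pow_ne_zero _ hx0) (v.ne_zero i)
  rw [div_eq_iff h1] at hc
  obtain ⟨xL, hxL⟩ : ∃ xL : L, (xL : K) = x := ⟨⟨x, hL.mem⟩, rfl⟩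
  have hxL0 : xL ≠ 0 := by
    intro h
    apply hx0
    rw [← hxL, h]
    rfl
  by_cases hii : i = i'
  · subst hii
    have hjj : j ≠ j' := by
      rcases hne with h | h
      · exact absurd rfl h
      · exact h
    rw [← mul_assoc] at hc
    have h2 : x ^ j' = algebraMap ℂ K c * x ^ j := mul_right_cancel₀ (v.ne_zero i) hc
    apply hL.tr
    refine ⟨Polynomial.X ^ j' - Polynomial.C c * Polynomial.X ^ j, ?_, ?_⟩
    · intro h0
      have h3 := congrArg (fun p : Polynomial ℂ => p.coeff j') h0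
      simp only [Polynomial.coeff_sub, Polynomial.coeff_X_pow_self, Polynomial.coeff_C_mul, Polynomial.coeff_X_pow,
        Polynomial.coeff_zero, if_neg (Ne.symm hjj), mul_zero, sub_zero] at h3
      exact one_ne_zero h3
    · rw [map_sub, map_mul, map_pow, map_pow, Polynomial.aeval_X, Polynomial.aeval_C, h2, sub_self]
  · have h2 : x ^ j' * v i' = xL ^ j' • v i' := by
      rw [Algebra.smul_def]
      show x ^ j' * v i' = ((xL ^ j' : L) : K) * v i'
      push_cast
      rw [hxL]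
    have h3 : algebraMap ℂ K c * (x ^ j * v i) = (algebraMap ℂ L c * xL ^ j) • v i := by
      rw [Algebra.smul_def]
      show algebraMap ℂ K c * (x ^ j * v i) = ((algebraMap ℂ L c * xL ^ j : L) : K) * v i
      push_cast
      rw [hxL, ← mul_assoc]
    rw [h2, h3] at hc
    have h4 := congrArg (fun f : K => v.repr f i') hc
    simp only [map_smul, Finsupp.smul_apply, Module.Basis.repr_self, Finsupp.single_eq_same, Finsupp.single_eq_of_ne (Ne.symm hii),
      smul_eq_mul, mul_one, mul_zero] at h4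
    exact pow_ne_zero _ hxL0 h4

private theorem Cases_sum {n : ℕ} (a : Fin n → ℕ) (k : ℕ) (i₀ i₁ : Fin n) (h0 : a i₀ = 0) (h1 : a i₁ = 2) (hk : 1 ≤ k)
    (h : ∀ i, i ≠ i₀ → i ≠ i₁ → a i = 1) : ∑ i, (k + 1 - a i) = n * k := by
  have hne : i₀ ≠ i₁ := by
    intro h2
    rw [h2, h1] at h0
    omega
  have h2 : ∑ i, ((k + 1 - a i) + (if i = i₁ then 1 else 0)) = ∑ i : Fin n, (k + (if i = i₀ then 1 else 0)) := by
    refine Finset.sum_congr rfl fun i _ => ?_
    by_cases hi0 : i = i₀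
    · rw [if_neg (by rw [hi0]; exact hne), if_pos hi0, hi0, h0]
      omega
    · by_cases hi1 : i = i₁
      · rw [if_pos hi1, if_neg hi0, hi1, h1]
        omega
      · rw [if_neg hi1, if_neg hi0, h i hi0 hi1]
        omega
  rw [Finset.sum_add_distrib, Finset.sum_add_distrib, Finset.sum_ite_eq' Finset.univ i₁, Finset.sum_ite_eq' Finset.univ i₀,
    if_pos (Finset.mem_univ _), if_pos (Finset.mem_univ _), Finset.sum_const, Finset.card_univ, Fintype.card_fin, smul_eq_mul] at h2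
  omega

private theorem Cases_sum_one {n : ℕ} (a : Fin n → ℕ) (i₀ : Fin n) (h0 : a i₀ = 0)
    (h : ∀ i, i ≠ i₀ → a i = 1) : ∑ i, (1 + 1 - a i) = n + 1 := by
  have h2 : ∑ i, (1 + 1 - a i) = ∑ i : Fin n, (1 + (if i = i₀ then 1 else 0)) := by
    refine Finset.sum_congr rfl fun i _ => ?_
    by_cases hi0 : i = i₀
    · rw [if_pos hi0, hi0, h0]
    · rw [if_neg hi0, h i hi0]
  rw [h2, Finset.sum_add_distrib, Finset.sum_ite_eq' Finset.univ i₀,
    if_pos (Finset.mem_univ _), Finset.sum_const, Finset.card_univ, Fintype.card_fin, smul_eq_mul, mul_one]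

theorem genus_cases (hK : CurveField K) :
    (∃ (ω : Form K 1) (h₁ h₂ : K), ω ≠ 0 ∧ h₁ ≠ 0 ∧ Transcendental ℂ (h₂ / h₁) ∧ ∀ E, PoleAtMost 0 E 1 h₁ ω ∧ PoleAtMost 0 E 1 h₂ ω) ∨
    ((∃ (ω : Form K 1) (h : K), ω ≠ 0 ∧ h ≠ 0 ∧ ∀ E, PoleAtMost 0 E 1 h ω) ∧
      ∃ E : Place K, ∀ k : ℕ, 1 ≤ k → ∃ W : Submodule ℂ K, FiniteDimensional ℂ W ∧ W ≤ LD (dv E k) ∧ k ≤ Module.finrank ℂ W) ∨
    ∃ t : K, IntermediateField.adjoin ℂ {t} = ⊤ := by
  obtain ⟨x, hx⟩ := hK.exists_tr
  obtain ⟨L, hLdef⟩ : ∃ L : IntermediateField ℂ K, L = IntermediateField.adjoin ℂ {x} := ⟨_, rfl⟩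
  have hL : Gen L x := ⟨hx, hLdef⟩
  have : FiniteDimensional L K := by
    rw [hLdef]
    exact hK.fin x hx
  obtain ⟨n, w, a, hw⟩ : ∃ (n : ℕ) (w : Module.Basis (Fin n) L K) (a : Fin n → ℕ), Birk x w a := by
    obtain ⟨w, a, hw⟩ := exists_birk hK hL
    exact ⟨_, w, a, hw⟩
  obtain ⟨i₀, hi₀, hi₁⟩ := hw.exists_zero hK hL
  obtain ⟨v, hv⟩ := exists_dual w
  obtain ⟨E, hE⟩ := exists_place_inf hK hx
  have hoz : 1 ≤ -oz E x := by
    have := neg_iff.mp hE
    omega
  by_cases hP : ∃ (i : Fin n) (j : ℕ) (i' : Fin n) (j' : ℕ), j + 2 ≤ a i ∧ j' + 2 ≤ a i' ∧ (i ≠ i' ∨ j ≠ j')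
  · left
    obtain ⟨i, j, i', j', h1, h2, hne⟩ := hP
    refine ⟨dx x, x ^ j * v i, x ^ j' * v i', dx_ne_zero hx, mul_ne_zero (pow_ne_zero _ hL.ne_zero) (v.ne_zero i), ?_, ?_⟩
    · exact transcendental_of_not_const fun c => Cases_not_const hL v hne c
    · exact fun E' => ⟨regular_form hK hL hw hv h1 E', regular_form hK hL hw hv h2 E'⟩
  · right
    have hU : ∀ (i : Fin n) (j : ℕ) (i' : Fin n) (j' : ℕ), j + 2 ≤ a i → j' + 2 ≤ a i' → i = i' ∧ j = j' := by
      intro i j i' j' h1 h2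
      by_contra hcon
      apply hP
      refine ⟨i, j, i', j', h1, h2, ?_⟩
      by_cases hii : i = i'
      · right
        intro hjj
        exact hcon ⟨hii, hjj⟩
      · left
        exact hii
    by_cases hQ : ∃ i : Fin n, 2 ≤ a i
    · left
      obtain ⟨i₁, h1⟩ := hQ
      have ha1 : a i₁ = 2 := by
        by_contra h2
        have h3 := (hU i₁ 0 i₁ 1 (by omega) (by omega)).2
        omega
      have hoth : ∀ i, i ≠ i₀ → i ≠ i₁ → a i = 1 := by
        intro i h2 h3
        have h4 := hi₁ i h2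
        by_contra h5
        exact h3 (hU i 0 i₁ 0 (by omega) (by omega)).1
      refine ⟨⟨dx x, v i₁, dx_ne_zero hx, v.ne_zero i₁, fun E' => ?_⟩, E, fun k hk => ?_⟩
      · have h2 := regular_form hK hL hw hv (j := 0) (i := i₁) (by omega) E'
        rwa [pow_zero, one_mul] at h2
      · obtain ⟨W, hW1, hW2, hW3⟩ := hw.exists_dv hK hL k k hE (by
          have : (0 : ℤ) ≤ k := Int.natCast_nonneg k
          nlinarith)
        refine ⟨W, hW1, hW2, ?_⟩
        rw [Cases_sum a k i₀ i₁ hi₀ ha1 hk hoth, mul_comm n k] at hW3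
        omega
    · right
      push Not at hQ
      have hoth : ∀ i, i ≠ i₀ → a i = 1 := by
        intro i h2
        have h4 := hi₁ i h2
        have h5 := hQ i
        omega
      obtain ⟨W, hW1, hW2, hW3⟩ := hw.exists_dv hK hL 1 1 hE (by
        push_cast
        omega)
      rw [Cases_sum_one a i₀ hi₀ hoth] at hW3
      have := hW1
      obtain ⟨f, hf, hfc⟩ := exists_not_const (W := W) (by omega)
      have h2 : f ∈ LD (dv E 1) := by
        have h3 := hW2 hf
        rwa [Nat.cast_one] at h3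
      exact ⟨f, top_of_dv_one hK h2 hfc⟩

end Pool.Agent.H13.CV
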